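import Mathlib

/-!
# Splitting automorphisms of prime order whose orbits generate abelian subgroups
-/

namespace Pool.Agent.Results.MP_5c9d8c_al.AbelianOrbits

variable {G : Type*} [Group G]

/-- For a commuting automorphism, `[φ x, y] = [x, φ y]`. -/
theorem swap (φ : MulAut G) (hc : ∀ g : G, Commute g (φ g)) (x y : G) :
    φ x * y * (φ x)⁻¹ * y⁻¹ = x * φ y * x⁻¹ * (φ y)⁻¹ := by
  have key : ∀ a b : G, (φ a)⁻¹ * b * φ a * b⁻¹ = a⁻¹ * φ b * a * (φ b)⁻¹ := by
    intro a b
    have h1 : a * b * (φ a * φ b) = φ a * φ b * (a * b) := by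
      have := (hc (a * b)).eq
      rwa [map_mul] at this
    have ha : a * φ a = φ a * a := (hc a).eq
    have hb : b * φ b = φ b * b := (hc b).eq
    have h2 : b * φ a * b⁻¹ * φ b * b = a⁻¹ * φ a * φ b * a * b := by
      calc b * φ a * b⁻¹ * φ b * b = b * φ a * b⁻¹ * (φ b * b) := by group
        _ = b * φ a * b⁻¹ * (b * φ b) := by rw [hb]
        _ = a⁻¹ * (a * b * (φ a * φ b)) := by group
        _ = a⁻¹ * (φ a * φ b * (a * b)) := by rw [h1]
        _ = _ := by group
    have h3 : a⁻¹ * φ a = φ a * a⁻¹ := by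
      rw [inv_mul_eq_iff_eq_mul, ← mul_assoc, ha, mul_assoc, mul_inv_cancel, mul_one]
    rw [h3] at h2
    have h4 : (φ a)⁻¹ * (b * φ a * b⁻¹ * φ b * b) = a⁻¹ * φ b * a * b := by
      rw [h2]; group
    calc (φ a)⁻¹ * b * φ a * b⁻¹ = ((φ a)⁻¹ * (b * φ a * b⁻¹ * φ b * b)) * b⁻¹ * (φ b)⁻¹ := by
          group
      _ = (a⁻¹ * φ b * a * b) * b⁻¹ * (φ b)⁻¹ := by rw [h4]
      _ = _ := by group
  have := key x⁻¹ y
  simpa using this

/-- Every commutator commutes with every `a⁻¹ φ(a)`. -/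
theorem commutator_commute (φ : MulAut G) (hc : ∀ g : G, Commute g (φ g)) (x b a : G) :
    Commute (x * b * x⁻¹ * b⁻¹) (a⁻¹ * φ a) := by
  -- write `x = φ x'`
  obtain ⟨x', rfl⟩ := φ.surjective x
  have e1 := swap φ hc x' (a * b)
  have e2 := swap φ hc x' a
  have e3 := swap φ hc x' b
  rw [map_mul] at e1
  set w := φ x' * b * (φ x')⁻¹ * b⁻¹ with hw
  -- [X, ab] = [X, a] * a [X, b] a⁻¹
  have f1 : φ x' * (a * b) * (φ x')⁻¹ * (a * b)⁻¹ =
      (φ x' * a * (φ x')⁻¹ * a⁻¹) * (a * w * a⁻¹) := by rw [hw]; group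
  have f2 : x' * (φ a * φ b) * x'⁻¹ * (φ a * φ b)⁻¹ =
      (x' * φ a * x'⁻¹ * (φ a)⁻¹) * (φ a * (x' * φ b * x'⁻¹ * (φ b)⁻¹) * (φ a)⁻¹) := by group
  rw [f1, f2, e2, ← e3] at e1
  have e4 : a * w * a⁻¹ = φ a * w * (φ a)⁻¹ := mul_left_cancel e1
  show w * (a⁻¹ * φ a) = (a⁻¹ * φ a) * w
  calc w * (a⁻¹ * φ a) = a⁻¹ * (a * w * a⁻¹) * φ a := by group
    _ = a⁻¹ * (φ a * w * (φ a)⁻¹) * φ a := by rw [e4]
    _ = _ := by group

theorem pow_commute (φ : MulAut G) (w : G)
    (hw : ∀ a : G, Commute w (a⁻¹ * φ a)) (i : ℕ) (a : G) : Commute w (a⁻¹ * (φ ^ i) a) := by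
  induction i with
  | zero => simp
  | succ i ih =>
    have h1 : a⁻¹ * (φ ^ (i + 1)) a = (a⁻¹ * (φ ^ i) a) * (((φ ^ i) a)⁻¹ * φ ((φ ^ i) a)) := by
      rw [pow_succ', MulAut.mul_apply]; group
    rw [h1]
    exact ih.mul_right (hw _)

theorem phi_pow (φ : MulAut G) (i : ℕ) (g : G) : φ ((φ ^ i) g) = (φ ^ (i + 1)) g := by
  rw [pow_succ', MulAut.mul_apply]

/-- `g` commutes with every `φ^i g`. -/
theorem self_commute (φ : MulAut G) (hc : ∀ g : G, Commute g (φ g)) (i : ℕ) (g : G) :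
    Commute g ((φ ^ i) g) := by
  induction i using Nat.strong_induction_on with
  | _ i ih =>
    match i, ih with
    | 0, _ => simp
    | 1, _ => simpa using hc g
    | (j + 2), ih =>
      have e1 := swap φ hc g ((φ ^ (j + 1)) g)
      rw [phi_pow] at e1
      have e3 : Commute (φ g) ((φ ^ (j + 1)) g) := by
        rw [← phi_pow]
        exact (ih j (by omega)).map φ
      have e7 : φ g * (φ ^ (j + 1)) g * (φ g)⁻¹ * ((φ ^ (j + 1)) g)⁻¹ = 1 := by
        rw [e3.eq]; group
      rw [e7] at e1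
      have e9 : g * (φ ^ (j + 1 + 1)) g = (φ ^ (j + 1 + 1)) g * g := by
        have := e1.symm
        rw [mul_inv_eq_one, mul_inv_eq_iff_eq_mul] at this
        exact this
      exact e9

/-- Product of `g⁻¹ φ^i(g)` over `i < n`. -/
theorem prod_formula (φ : MulAut G) (hc : ∀ g : G, Commute g (φ g)) (g : G) (n : ℕ) :
    ((List.range n).map (fun i => g⁻¹ * (φ ^ i) g)).prod =
      (g⁻¹) ^ n * ((List.range n).map (fun i => (φ ^ i) g)).prod := by
  induction n with
  | zero => simp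
  | succ n ih =>
    rw [List.range_succ, List.map_append, List.map_append, List.prod_append, List.prod_append, ih]
    simp only [List.map_cons, List.map_nil, List.prod_cons, List.prod_nil, mul_one]
    have hcomm : Commute (((List.range n).map (fun i => (φ ^ i) g)).prod) g⁻¹ := by
      apply Commute.list_prod_left
      intro x hx
      rw [List.mem_map] at hx
      obtain ⟨i, _, rfl⟩ := hx
      exact ((self_commute φ hc i g).symm).inv_right
    rw [pow_succ, mul_assoc, mul_assoc, ← mul_assoc _ g⁻¹, hcomm.eq, mul_assoc]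

/-- Every commutator is central. -/
theorem central (p : ℕ) (hG : ∀ g : G, Nat.Coprime (orderOf g) p) (φ : MulAut G)
    (hs : ∀ g : G, ((List.range p).map (fun i => (φ ^ i) g)).prod = 1)
    (hc : ∀ g : G, Commute g (φ g)) (x y z : G) : Commute (x * y * x⁻¹ * y⁻¹) z := by
  set w := x * y * x⁻¹ * y⁻¹ with hw
  have h1 : ∀ i : ℕ, Commute w (z⁻¹ * (φ ^ i) z) := fun i =>
    pow_commute φ w (commutator_commute φ hc x y) i z
  have h2 : Commute w (((List.range p).map (fun i => z⁻¹ * (φ ^ i) z)).prod) := by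
    apply Commute.list_prod_right
    intro u hu
    rw [List.mem_map] at hu
    obtain ⟨i, _, rfl⟩ := hu
    exact h1 i
  rw [prod_formula φ hc, hs z, mul_one, inv_pow, Commute.inv_right_iff] at h2
  -- `z` is a power of `z ^ p`
  obtain ⟨k, hk⟩ := exists_pow_eq_self_of_coprime (hG z).symm
  rw [← hk]
  exact h2.pow_right k

/-- Let `p` be a prime, `G` a periodic group without elements of order divisible by `p`, and `φ` a
splitting automorphism of order `p`.  If `g` commutes with `φ(g)` for every `g` (equivalently, all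
the subgroups `H_g` are abelian), then `G` is nilpotent of class at most `2`. -/
theorem result (G : Type*) [Group G] (p : ℕ) (_hp : p.Prime)
    (hG : ∀ g : G, Nat.Coprime (orderOf g) p) (φ : MulAut G) (_hφ : orderOf φ = p)
    (hs : ∀ g : G, ((List.range p).map (fun i => (φ ^ i) g)).prod = 1)
    (hc : ∀ g : G, Commute g (φ g)) :
    Group.IsNilpotent G ∧ Group.nilpotencyClass G ≤ 2 := by
  have key : ∀ x y z : G, Commute (x * y * x⁻¹ * y⁻¹) z := central p hG φ hs hc
  have h2 : (⊤ : Subgroup G).lowerCentralSeries 2 = ⊥ := by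
    show ⁅⁅(⊤ : Subgroup G), (⊤ : Subgroup G)⁆, (⊤ : Subgroup G)⁆ = ⊥
    rw [Subgroup.commutator_eq_bot_iff_le_centralizer, Subgroup.commutator_le]
    intro x _ y _
    rw [Subgroup.mem_centralizer_iff]
    intro z _
    exact (key x y z).symm
  have hn : Group.IsNilpotent G := Subgroup.nilpotent_iff_lowerCentralSeries.mpr ⟨2, h2⟩
  exact ⟨hn, Subgroup.lowerCentralSeries_eq_bot_iff_nilpotencyClass_le.mp h2⟩

end Pool.Agent.Results.MP_5c9d8c_al.AbelianOrbits
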