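import Pool.Agent.H81.SC.Ncl

/-!
# Splitting automorphisms whose orbits generate subgroups of class at most two
-/

namespace Pool.Agent.Results.MP_5c9d8c_al.ClassTwoOrbits

open scoped commutatorElement
open H81.SC

/-- Let `p` be a prime and `G` a group all of whose elements have finite order prime to `6 p`, with
a splitting automorphism `φ` of order `p`.  Suppose that all `H_g` are nilpotent, and that `g`
commutes with `[g, φ^i(g)]` for all `g`, `i` (for instance because all `H_g` have class at most
two).  Then the normal closure of every element is nilpotent of class at most three, and `G` is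
locally nilpotent. -/
theorem result (G : Type*) [Group G] (p : ℕ) (hp : p.Prime)
    (hG : ∀ g : G, Nat.Coprime (orderOf g) p) (h6 : ∀ g : G, Nat.Coprime (orderOf g) 6)
    (φ : MulAut G) (hφ : orderOf φ = p)
    (hs : ∀ g : G, ((List.range p).map (fun i => (φ ^ i) g)).prod = 1)
    (hn : ∀ g : G, Group.IsNilpotent
      (Subgroup.closure (Set.range (fun i : Fin p => (φ ^ (i : ℕ)) g))))
    (hc : ∀ (g : G) (i : ℕ), Commute ⁅g, (φ ^ i) g⁆ g) :
    (∀ x : G, Group.IsNilpotent (Subgroup.normalClosure {x}) ∧
      Group.nilpotencyClass (Subgroup.normalClosure {x}) ≤ 3) ∧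
    ∀ H : Subgroup G, H.FG → Group.IsNilpotent H := by
  have hc' : ∀ (g : G) (i : ℕ), Commute (cm g ((φ ^ i) g)) g := by
    intro g i
    set y := (φ ^ i) g with hy
    have h1 : Commute g (y * g⁻¹ * y⁻¹) := by
      have h2 := (hc g i).symm
      rw [commutatorElement_def] at h2
      have h3 := (Commute.refl g).inv_right.mul_right h2
      have e : g⁻¹ * (g * (φ ^ i) g * g⁻¹ * ((φ ^ i) g)⁻¹) = y * g⁻¹ * y⁻¹ := by
        rw [hy]; group
      rwa [e] at h3
    have h4 : Commute (cj g y) g⁻¹ := by
      have := comm_cj h1 y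
      have e : cj (y * g⁻¹ * y⁻¹) y = g⁻¹ := by unfold cj; group
      rwa [e] at this
    apply cm_self_of
    simpa using h4.symm.inv_left
  have h3 : ∀ x : G, (Subgroup.normalClosure {x}).lowerCentralSeries 3 = ⊥ := fun x =>
    ncl fun g y h => first hp hG h6 hφ hs hn hc' x g y h
  refine ⟨fun x => ?_, fun H hH => Fit.locnil h3 H hH⟩
  have hnil : Group.IsNilpotent (Subgroup.normalClosure {x}) :=
    Subgroup.isNilpotent_of_lowerCentralSeries_eq_bot (h3 x)
  refine ⟨hnil, ?_⟩
  rw [← Subgroup.lowerCentralSeries_eq_bot_iff_nilpotencyClass_le]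
  apply Subgroup.map_injective (Subgroup.normalClosure {x}).subtype_injective
  rw [Subgroup.top_subtype_lowerCentralSeries, h3 x, Subgroup.map_bot]

end Pool.Agent.Results.MP_5c9d8c_al.ClassTwoOrbits
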