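import Pool.Agent.H59.PO.Top
import Pool.Agent.H59.SD.Rad

/-!
# Splitting automorphisms of prime order: commutators of the orbits modulo powers
-/

set_option autoImplicit false

open scoped commutatorElement

namespace Pool.Agent.Results.MP_5c9d8c_al.PowerfulOrbits

open Pool.Agent.H59.PO

universe u

/-- `H_g`, the subgroup generated by `g, φ(g), …, φ^(p-1)(g)`. -/
def H {G : Type u} [Group G] (p : ℕ) (φ : MulAut G) (g : G) : Subgroup G :=
  Subgroup.closure (Set.range (fun i : Fin p => (φ ^ (i : ℕ)) g))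

/-- `K` is powerful: the commutator subgroup of `K` lies in the subgroup generated by the `q`-th powers (for `q = 2`: the
fourth powers) of the elements of `K`. -/
def Powerful {G : Type u} [Group G] (q : ℕ) (K : Subgroup G) : Prop :=
  ⁅K, K⁆ ≤ Subgroup.closure {y | ∃ h ∈ K, y = h ^ (if q = 2 then 4 else q)}

/-- First condition on the prime `q`: for every `g` with `g ^ (q ^ (n + 1)) = 1` all commutators `[g, φ^i(g)]` lie
in the subgroup generated by the elements `h` of `G` with `h ^ (q ^ n) = 1`, or `H_g` is powerful. -/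
def Abel {G : Type u} [Group G] (p : ℕ) (φ : MulAut G) (q : ℕ) : Prop :=
  ∀ (n : ℕ) (g : G), g ^ q ^ (n + 1) = 1 →
    (∀ i : ℕ, ⁅g, (φ ^ i) g⁆ ∈ Subgroup.closure {h : G | h ^ q ^ n = 1}) ∨ Powerful q (H p φ g)

/-- Second condition on the prime `q`: for every `g` of `q`-power order all commutators `[g, [g, φ^i(g)]]` lie in the
normal closure of the elements `φ^j(g ^ q)`, or `H_g` is powerful. -/
def Two {G : Type u} [Group G] (p : ℕ) (φ : MulAut G) (q : ℕ) : Prop :=
  ∀ g : G, (∃ e : ℕ, g ^ q ^ e = 1) →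
    (∀ i : ℕ, ⁅g, ⁅g, (φ ^ i) g⁆⁆ ∈
      Subgroup.normalClosure (Set.range fun j : ℕ => (φ ^ j) (g ^ q))) ∨ Powerful q (H p φ g)

theorem powerful_le {G : Type u} [Group G] {q : ℕ} {K : Subgroup G} (h : Powerful q K) :
    ⁅K, K⁆ ≤ Pool.Agent.H83.BF.pw (if q = 2 then 4 else q) K := by
  refine h.trans ?_
  rw [Subgroup.closure_le]
  rintro _ ⟨h, hh, rfl⟩
  exact Subgroup.subset_closure ⟨h, hh, rfl⟩

/-- Let `p` be a prime, `G` a group in which the orders of all elements are finite and prime to `p`, and `φ` a splitting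
automorphism of `G` of order `p` such that all `H_g` are nilpotent.
(1) If a prime `q` satisfies the first condition, or if `q ≠ 2` satisfies the second and `2` satisfies the first,
then every finite set of elements of `q`-power order generates a finite `q`-group.
(2) If `2` satisfies the first condition and every other prime satisfies the first or the second, then `G` is locally
finite and locally nilpotent. -/
theorem result (G : Type u) [Group G] (p : ℕ) (hp : p.Prime)
    (hG : ∀ g : G, Nat.Coprime (orderOf g) p) (φ : MulAut G) (hφ : orderOf φ = p)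
    (hs : ∀ g : G, ((List.range p).map (fun i => (φ ^ i) g)).prod = 1)
    (hn : ∀ g : G, Group.IsNilpotent (H p φ g)) :
    (∀ q : ℕ, q.Prime → Abel p φ q ∨ (q ≠ 2 ∧ Two p φ q ∧ Abel p φ 2) →
      ∀ s : Finset G, (∀ x ∈ s, ∃ e : ℕ, x ^ q ^ e = 1) →
        Finite (Subgroup.closure (s : Set G)) ∧ IsPGroup q (Subgroup.closure (s : Set G))) ∧
    ((∀ q : ℕ, q.Prime → Abel p φ q ∨ (q ≠ 2 ∧ Two p φ q)) →
      (∀ s : Finset G, Finite (Subgroup.closure (s : Set G))) ∧
        ∀ K : Subgroup G, K.FG → Group.IsNilpotent K) := by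
  have hS : Spl p φ := ⟨hp, hG, by rw [← hφ]; exact pow_orderOf_eq_one φ, hs, hn⟩
  have key : ∀ q : ℕ, q.Prime → Abel p φ q →
      ∀ (n : ℕ) (g : G), g ^ q ^ n = 1 → g ∈ Pool.Agent.H76.MB.rad G := by
    intro q hq hc
    refine mem_rad_of hS (cond hS hq fun n g hg => ?_)
    rcases hc n g hg with h | h
    · exact Or.inl h
    · exact Or.inr (powerful_le h)
  have key2 : ∀ q : ℕ, q.Prime → q ≠ 2 → Two p φ q → Abel p φ 2 →
      ∀ (n : ℕ) (g : G), g ^ q ^ n = 1 → g ∈ Pool.Agent.H76.MB.rad G := by
    intro q hq h5 h h2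
    refine Pool.Agent.H59.SD.mem_rad_two hS (key 2 Nat.prime_two h2) hq h5 fun g hg => ?_
    rcases h g hg with h | h
    · exact Or.inl h
    · exact Or.inr (powerful_le h)
  refine ⟨fun q hq hc s h => ?_, fun hc => ?_⟩
  · rcases hc with hc | ⟨h5, ht, h2⟩
    · exact qpart hS hq (key q hq hc) s h
    · exact qpart hS hq (key2 q hq h5 ht h2) s h
  · have h2 : Abel p φ 2 := (hc 2 Nat.prime_two).resolve_right fun h => h.1 rfl
    have hLF := lf_of hS fun q hq => by
      rcases hc q hq with h | ⟨h5, h⟩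
      · exact key q hq h
      · exact key2 q hq h5 h h2
    exact ⟨hLF, fun K hK => loc_nil hS hLF K hK⟩

end Pool.Agent.Results.MP_5c9d8c_al.PowerfulOrbits
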