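import Pool.Agent.H59.FI.Top

/-!
# Splitting automorphisms of prime order: orbits of small class, all primes
-/

set_option autoImplicit false

namespace Pool.Agent.Results.MP_5c9d8c_al.SmallClassOrbits

open Pool.Agent.H59.PO

universe u

/-- For every `g` of `q`-power order and every `i` the subgroup generated by `g` and `φ^i(g)` is nilpotent of class at
most `c`. -/
def PairClass {G : Type u} [Group G] (φ : MulAut G) (q c : ℕ) : Prop :=
  ∀ (g : G) (m : ℕ), g ^ q ^ m = 1 → ∀ i : ℕ,
    (Subgroup.closure {g, (φ ^ i) g}).lowerCentralSeries c = ⊥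

/-- Let `p` be a prime, `G` a group in which the orders of all elements are finite and prime to `p`, and `φ` a splitting
automorphism of `G` of order `p` such that every subgroup `H_g = ⟨g, φ(g), …, φ^(p-1)(g)⟩` is nilpotent. Suppose that
the subgroups `⟨g, φ^i(g)⟩`, with `g` of `2`-power order, have class at most `3`.
(1) Let `q` be a prime; if `q = 3` and `p ≠ 5` suppose that the `⟨g, φ^i(g)⟩`, with `g` of `3`-power order, have class at
most `5` (nothing is assumed if `p = 5`); if `q ≥ 5` suppose that the `⟨g, φ^i(g)⟩`, with `g` of `q`-power order, have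
class at most `2`. Then every finite set of elements of `q`-power order generates a finite `q`-group.
(2) If this holds for all primes `q`, then `G` is locally finite and locally nilpotent. -/
theorem result (G : Type u) [Group G] (p : ℕ) (hp : p.Prime)
    (hG : ∀ g : G, Nat.Coprime (orderOf g) p) (φ : MulAut G) (hφ : orderOf φ = p)
    (hs : ∀ g : G, ((List.range p).map (fun i => (φ ^ i) g)).prod = 1)
    (hn : ∀ g : G, Group.IsNilpotent
      (Subgroup.closure (Set.range (fun i : Fin p => (φ ^ (i : ℕ)) g))))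
    (h2 : PairClass φ 2 3) :
    (∀ q : ℕ, q.Prime → (q = 3 → p ≠ 5 → PairClass φ 3 5) → (5 ≤ q → PairClass φ q 2) →
      ∀ s : Finset G, (∀ x ∈ s, ∃ e : ℕ, x ^ q ^ e = 1) →
        Finite (Subgroup.closure (s : Set G)) ∧ IsPGroup q (Subgroup.closure (s : Set G))) ∧
    ((p ≠ 5 → PairClass φ 3 5) → (∀ q : ℕ, q.Prime → 5 ≤ q → PairClass φ q 2) →
      (∀ s : Finset G, Finite (Subgroup.closure (s : Set G))) ∧
        ∀ K : Subgroup G, K.FG → Group.IsNilpotent K) := by
  have hS : Spl p φ := ⟨hp, hG, by rw [← hφ]; exact pow_orderOf_eq_one φ, hs, hn⟩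
  exact ⟨fun q hq h3 h5 s h => Pool.Agent.H59.FI.main hS h2 hq h3 h5 s h,
    fun h3 h5 => Pool.Agent.H59.FH.main5 hS h2 h3 h5⟩

end Pool.Agent.Results.MP_5c9d8c_al.SmallClassOrbits
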